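import Pool.Agent.H30.BV.Targets
import Pool.Agent.H33.PF.M8

/-!
Module `M9` of the board bv_modules.
-/

set_option autoImplicit false

open Finset Real Pool.Agent.H30.BV Pool.Agent.H30.PF.M8
open Pool.Agent.H30.PF (S8 pr)

namespace Pool.Agent.H78.BV

theorem m9 (hML : T_ML) : T_M9 := by
  obtain ⟨C, hML⟩ := hML
  obtain ⟨B, hB, hap⟩ := ap_bound
  refine ⟨(C + 1) / 2 + B, fun y hy => ?_⟩
  have hy0 : (3 : ℝ) ≤ y := by exact_mod_cast hy
  -- the character sum
  have h1 : |∑ i ∈ Ico 3 (y + 1), ap i * (1 / log i)| ≤ 2 * B * (1 / log ((3 : ℕ) : ℝ)) := by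
    refine abel ap (fun i : ℕ => 1 / log (i : ℝ)) B 3 hap ?_ ?_ (y + 1) (by omega)
    · intro n hn
      have h2 : (3 : ℝ) ≤ n := by exact_mod_cast hn
      refine one_div_le_one_div_of_le (log_pos (by linarith)) ?_
      refine log_le_log (by linarith) ?_
      push_cast
      linarith
    · intro n hn
      have h2 : (3 : ℝ) ≤ n := by exact_mod_cast hn
      exact (one_div_pos.2 (log_pos (by linarith))).le
  have hl3 : 1 ≤ log ((3 : ℕ) : ℝ) := by
    rw [le_log_iff_exp_le (by norm_num)]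
    push_cast
    exact Pool.Agent.H22.MR.exp1_lt3.le
  have h2 : -(2 * B) ≤ ∑ i ∈ Ico 3 (y + 1), ap i * (1 / log i) := by
    have h3 : 1 / log ((3 : ℕ) : ℝ) ≤ 1 := by
      rw [div_le_one (by linarith)]
      exact hl3
    have h4 := mul_le_mul_of_nonneg_left h3 (show 0 ≤ 2 * B by linarith)
    have h5 := (abs_le.1 h1).1
    linarith
  have h3 : ∑ i ∈ Ico 3 (y + 1), ap i * (1 / log i) =
      ∑ q ∈ (Ioc 2 y).filter Nat.Prime, cx q * (1 / q) := by
    rw [sum_filter]
    have e : Ico 3 (y + 1) = Ioc 2 y := by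
      ext x
      simp only [mem_Ico, mem_Ioc]
      omega
    rw [e]
    refine sum_congr rfl fun q hq => ?_
    rw [mem_Ioc] at hq
    unfold ap
    split_ifs
    · have h4 : (2 : ℝ) < q := by exact_mod_cast hq.1
      have h5 : log (q : ℝ) ≠ 0 := (log_pos (by linarith)).ne'
      field_simp
    · rw [zero_mul]
  have h4 := hML y hy
  -- the primes above two
  have h40 : ∑ q ∈ (Icc 1 y).filter Nat.Prime, (1 : ℝ) / q =
      1 / 2 + ∑ q ∈ (Ioc 2 y).filter Nat.Prime, (1 : ℝ) / q := by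
    have e : (Icc 1 y).filter Nat.Prime = insert 2 ((Ioc 2 y).filter Nat.Prime) := by
      ext q
      simp only [mem_filter, mem_Icc, mem_insert, mem_Ioc]
      constructor
      · rintro ⟨⟨h5, h6⟩, h7⟩
        have := h7.two_le
        by_cases h8 : q = 2
        · exact Or.inl h8
        · exact Or.inr ⟨⟨by omega, h6⟩, h7⟩
      · rintro (rfl | ⟨⟨h5, h6⟩, h7⟩)
        · exact ⟨⟨by norm_num, by omega⟩, Nat.prime_two⟩
        · exact ⟨⟨by omega, h6⟩, h7⟩
    have h2n : 2 ∉ (Ioc 2 y).filter Nat.Prime := by simp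
    rw [e, sum_insert h2n]
    norm_num
  have h5 : ∑ q ∈ (Ioc 2 y).filter Nat.Prime, (1 + cx q) / 2 * (1 / q) ≤
      ∑ q ∈ (Icc 1 y).filter (fun q => q.Prime ∧ S8 q), (1 : ℝ) / q := by
    have e1 : (Ioc 2 y).filter (fun q => q.Prime ∧ S8 q) ⊆
        (Icc 1 y).filter (fun q => q.Prime ∧ S8 q) := by
      intro q hq
      simp only [mem_filter, mem_Icc, mem_Ioc] at hq ⊢
      exact ⟨⟨by omega, hq.1.2⟩, hq.2⟩
    have e2 : ∑ q ∈ (Ioc 2 y).filter Nat.Prime, (1 + cx q) / 2 * (1 / q) =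
        ∑ q ∈ (Ioc 2 y).filter (fun q => q.Prime ∧ S8 q), (1 : ℝ) / q := by
      rw [← filter_filter, sum_filter (p := fun q => S8 q)]
      refine sum_congr rfl fun q hq => ?_
      rw [mem_filter, mem_Ioc] at hq
      have hodd : q % 2 = 1 := by
        rcases hq.2.eq_two_or_odd with h | h
        · omega
        · exact h
      by_cases h9 : S8 q
      · rw [if_pos h9]
        have h10 : cx q = 1 := by
          unfold cx
          rw [if_neg (by omega)]
          exact if_pos h9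
        rw [h10]
        ring
      · rw [if_neg h9]
        have h10 : cx q = -1 := by
          unfold cx
          rw [if_neg (by omega)]
          exact if_neg h9
        rw [h10]
        ring
    rw [e2]
    exact sum_le_sum_of_subset_of_nonneg e1 fun q _ _ => by positivity
  have h6 : ∑ q ∈ (Ioc 2 y).filter Nat.Prime, (1 + cx q) / 2 * (1 / q) =
      1 / 2 * ∑ q ∈ (Ioc 2 y).filter Nat.Prime, (1 : ℝ) / q +
      1 / 2 * ∑ q ∈ (Ioc 2 y).filter Nat.Prime, cx q * (1 / q) := by
    rw [mul_sum, mul_sum, ← sum_add_distrib]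
    refine sum_congr rfl fun q _ => ?_
    ring
  rw [← h3] at h6
  linarith

end Pool.Agent.H78.BV
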