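import Pool.Agent.H30.BV.Targets

/-!
Module `PL` of the board bv_modules.
-/

set_option autoImplicit false

open Finset Real Pool.Agent.H30.BV
open Pool.Agent.H30.PF (S8 pr)

namespace Pool.Agent.H78.BV

theorem primeCounting_nth (n : ℕ) : Nat.primeCounting (Nat.nth Nat.Prime n) = n + 1 := by
  have h := Nat.primeCounting'_nth_eq n
  have hp : (Nat.nth Nat.Prime n).Prime := Nat.prime_nth_prime n
  unfold Nat.primeCounting
  unfold Nat.primeCounting' at h ⊢
  rw [Nat.count_succ, h, if_pos hp]

theorem pl : T_PL := by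
  refine ⟨1 / 5, by norm_num, fun n hn => ?_⟩
  obtain ⟨p, hp⟩ : ∃ p, p = pr n := ⟨_, rfl⟩
  rw [← hp]
  have hpn : p = Nat.nth Nat.Prime (n - 1) := hp
  have hprime : p.Prime := by rw [hpn]; exact Nat.prime_nth_prime _
  have hpi : Nat.primeCounting p = n := by
    rw [hpn, primeCounting_nth]
    omega
  have hnp : n ≤ p := by
    rw [← hpi]
    have h2 : Nat.primeCounting p = Nat.count Nat.Prime (p + 1) := rfl
    rw [h2, Nat.count_succ]
    have h3 : Nat.count Nat.Prime p + 1 ≤ p := by
      have h4 : Nat.count Nat.Prime p ≤ p - 1 := by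
        have h5 : p = 1 + (p - 1) := by have := hprime.two_le; omega
        rw [h5, Nat.count_add]
        have h6 : Nat.count Nat.Prime 1 = 0 := by
          rw [Nat.count_succ]
          simp [Nat.not_prime_zero]
        rw [h6, zero_add]
        exact (Nat.count_le _).trans (by omega)
      have := hprime.two_le
      omega
    rw [if_pos hprime]
    exact h3
  have hp1 : (2 : ℝ) ≤ p := by exact_mod_cast hprime.two_le
  have hlp : 0 < log (p : ℝ) := Real.log_pos (by linarith)
  have hn2 : (2 : ℝ) ≤ n := by exact_mod_cast hn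
  have hs0 : 0 < √(p : ℝ) := Real.sqrt_pos.2 (by linarith)
  have hsq : √(p : ℝ) * √(p : ℝ) = p := Real.mul_self_sqrt (by linarith)
  have hlog : log (√(p : ℝ)) = log (p : ℝ) / 2 := Real.log_sqrt (by linarith)
  have h1 := Chebyshev.pi_le_log4_mul_div (x := (p : ℝ)) (by linarith)
  rw [Nat.floor_natCast, hpi, hlog] at h1
  have h7 : log (p : ℝ) ≤ 2 * √(p : ℝ) := by
    have h8 : log (√(p : ℝ)) ≤ √(p : ℝ) - 1 := Real.log_le_sub_one_of_pos hs0
    rw [hlog] at h8
    linarith
  have hl3 : Real.log 2 < 0.6931471808 := Real.log_two_lt_d9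
  have h4 : Real.log 4 = 2 * Real.log 2 := by
    rw [show (4 : ℝ) = 2 ^ 2 by norm_num, Real.log_pow]
    norm_num
  have h5 : (n : ℝ) * log p ≤ 5 * p := by
    have e1 : Real.log 4 * p / (log (p : ℝ) / 2) * log p = 2 * Real.log 4 * p := by
      field_simp
    have e2 : (n : ℝ) * log p ≤ (Real.log 4 * p / (log (p : ℝ) / 2) + √(p : ℝ)) * log p :=
      mul_le_mul_of_nonneg_right h1 hlp.le
    rw [add_mul, e1] at e2
    have e3 : √(p : ℝ) * log p ≤ √(p : ℝ) * (2 * √(p : ℝ)) :=
      mul_le_mul_of_nonneg_left h7 hs0.le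
    have e4 : √(p : ℝ) * (2 * √(p : ℝ)) = 2 * p := by
      linear_combination 2 * hsq
    have e5 : 2 * Real.log 4 * p ≤ 3 * p := mul_le_mul_of_nonneg_right (by linarith) (by linarith)
    linarith
  have h6 : log (n : ℝ) ≤ log p := Real.log_le_log (by linarith) (by exact_mod_cast hnp)
  have h8 : (n : ℝ) * log n ≤ n * log p := mul_le_mul_of_nonneg_left h6 (by linarith)
  linarith

end Pool.Agent.H78.BV
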